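import Mathlib

set_option autoImplicit false

namespace Pool.Agent.Results.MP_020c1a_co.Counter

def Sing {G : Type} [Group G] (p : ℕ) (F : Set G) : Prop :=
  ∀ g ∈ F, ∀ h ∈ F, g ≠ h → p ∣ orderOf (g * h⁻¹)

def IsMax {G : Type} [Group G] (p : ℕ) (F : Set G) : Prop :=
  Sing p F ∧ ∀ F' : Set G, Sing p F' → F'.ncard ≤ F.ncard

theorem key {G : Type} [Group G] [Finite G] (p : ℕ) [hp : Fact p.Prime] (z t : G)
    (hz : ∀ g, Commute z g) (z1 : z ≠ 1) (m : ℕ) (hm : ¬ p ∣ m) (zm : z ^ m = 1)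
    (t1 : t ≠ 1) (tp : t ^ p = 1) :
    ∃ F : Set G, IsMax p F ∧
      ¬ ∃ (P : Sylow p G) (g h : G), F = (fun s => g * s * h) '' (P : Set G) := by
  obtain ⟨F, hF, hmax⟩ := Set.exists_max_image {F : Set G | Sing p F} Set.ncard (Set.toFinite _)
    ⟨∅, fun g hg => hg.elim⟩
  by_cases h : ∃ (P : Sylow p G) (g h : G), F = (fun s => g * s * h) '' (P : Set G)
  swap
  · exact ⟨F, ⟨hF, hmax⟩, h⟩
  obtain ⟨P, g, h, rfl⟩ := h
  rw [Set.ncard_image_of_injective _ (fun a b e => by simpa using e)] at hmax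
  have pel : ∀ (Q : Sylow p G), ∀ x ∈ Q, ∃ k, x ^ p ^ k = 1 := fun Q x hx => by
    obtain ⟨k, hk⟩ := Q.isPGroup' ⟨x, hx⟩
    exact ⟨k, congrArg Subtype.val hk⟩
  have cop : ∀ (x : G) (a k : ℕ), ¬ p ∣ a → x ^ a = 1 → x ^ p ^ k = 1 → x = 1 := by
    intro x a k ha h1 h2
    have := (pow_gcd_eq_one (a := x)).2 ⟨h1, h2⟩
    rwa [(((Nat.Prime.coprime_iff_not_dvd hp.out).2 ha).symm.pow_right k), pow_one] at this
  have np : ∀ (x : G) (k j : ℕ), x ^ p ^ k = 1 → (z * x) ^ p ^ j ≠ 1 := by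
    intro x k j h1 h2
    refine z1 (cop z m (k + j) hm zm ?_)
    have h3 : (z * x) ^ p ^ (k + j) = 1 := by rw [pow_add, mul_comm (p ^ k), pow_mul, h2, one_pow]
    rwa [(hz x).mul_pow, show x ^ p ^ (k + j) = 1 by rw [pow_add, pow_mul, h1, one_pow],
      mul_one] at h3
  have dv : ∀ x ∈ P, x ≠ 1 → ∀ w : G, w ^ m = 1 → Commute w x → p ∣ orderOf (w * x) := by
    intro x hx x1 w hw hc
    by_contra hd
    obtain ⟨k, hk⟩ := pel P x hx
    refine x1 (cop x (m * orderOf (w * x)) k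
      (fun h => ((Nat.Prime.dvd_mul hp.out).1 h).elim hm hd) ?_ hk)
    have h3 : (w * x) ^ (m * orderOf (w * x)) = 1 := by
      rw [mul_comm m, pow_mul, pow_orderOf_eq_one, one_pow]
    rwa [hc.mul_pow, pow_mul w, hw, one_pow, one_mul] at h3
  obtain ⟨u, hu, u1⟩ : ∃ u ∈ P, u ≠ 1 := by
    have : p ∣ Nat.card G := (orderOf_eq_prime tp t1) ▸ orderOf_dvd_natCard t
    exact (Subgroup.bot_or_exists_ne_one (P : Subgroup G)).resolve_left (P.ne_bot_of_dvd_card this)
  obtain ⟨ku, hku⟩ := pel P u hu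
  have nm : z * u ∉ (P : Set G) \ {u} := fun h => by
    obtain ⟨j, hj⟩ := pel P _ h.1
    exact np u ku j hku hj
  refine ⟨insert (z * u) ((P : Set G) \ {u}), ⟨?_, fun F' hF' => ?_⟩, ?_⟩
  · rintro a (rfl | ⟨ha, a1⟩) b (rfl | ⟨hb, b1⟩) hab
    · exact (hab rfl).elim
    · rw [mul_assoc]
      exact dv _ (mul_mem hu (inv_mem hb)) (fun e => b1 (mul_inv_eq_one.1 e).symm) z zm (hz _)
    · rw [show a * (z * u)⁻¹ = z⁻¹ * (a * u⁻¹) by rw [(hz _).inv_left.eq]; group]
      exact dv _ (mul_mem ha (inv_mem hu)) (fun e => a1 (mul_inv_eq_one.1 e)) z⁻¹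
        (by rw [inv_pow, zm, inv_one]) (hz _).inv_left
    · simpa using dv _ (mul_mem ha (inv_mem hb)) (fun e => hab (mul_inv_eq_one.1 e)) 1
        (one_pow _) (Commute.one_left _)
  · rw [Set.ncard_insert_of_notMem nm, Set.ncard_sdiff_singleton_add_one hu]
    exact hmax F' hF'
  · rintro ⟨Q, g', h', e⟩
    obtain ⟨s, hs, e1⟩ : (1 : G) ∈ (fun s => g' * s * h') '' (Q : Set G) :=
      e ▸ Or.inr ⟨one_mem P, u1.symm⟩
    obtain ⟨s', hs', e2⟩ : z * u ∈ (fun s => g' * s * h') '' (Q : Set G) := e ▸ Or.inl rfl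
    obtain ⟨j, hj⟩ := pel Q _ (mul_mem hs' (inv_mem hs))
    refine np u ku j hku ?_
    have : z * u = g' * (s' * s⁻¹) * g'⁻¹ := by
      rw [← mul_one (z * u), ← inv_one, ← e1, ← e2]; group
    rw [this, conj_pow, hj]; simp

theorem result (p : ℕ) [Fact p.Prime] (K : Type) [Field K] [Fintype K] [CharP K p]
    (hK : 3 ≤ Fintype.card K) (n : ℕ) (hn : 2 ≤ n) :
    ∃ F : Set (GL (Fin n) K), IsMax p F ∧
      ¬ ∃ (P : Sylow p (GL (Fin n) K)) (g h : GL (Fin n) K),
        F = (fun s => g * s * h) '' (P : Set (GL (Fin n) K)) := by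
  classical
  have : Nontrivial Kˣ := Fintype.one_lt_card_iff_nontrivial.1 (by rw [Fintype.card_units]; omega)
  obtain ⟨c, hc⟩ := exists_ne (1 : Kˣ)
  let i : Fin n := ⟨0, by omega⟩
  let j : Fin n := ⟨1, by omega⟩
  have ij : i ≠ j := by simp [i, j]
  have pw : ∀ k : ℕ, Matrix.transvection i j (1 : K) ^ k = Matrix.transvection i j (k : K) := by
    intro k
    induction k with
    | zero => simp
    | succ k ih => rw [pow_succ, ih, Matrix.transvection_mul_transvection_same _ _ ij]; simp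
  refine key p (Matrix.GeneralLinearGroup.scalar (Fin n) c)
    (Matrix.GeneralLinearGroup.mkOfDetNeZero (Matrix.transvection i j 1)
      (by rw [Matrix.det_transvection_of_ne _ _ ij]; exact one_ne_zero))
    (fun g => Units.ext (Matrix.scalar_commute c.val (fun _ => Commute.all _ _) g.val))
    (fun e => hc (Units.ext ?_)) (Fintype.card K - 1) (fun h => ?_) ?_ (fun e => ?_)
    (Units.ext ?_)
  · simpa [Matrix.GeneralLinearGroup.scalar] using congrArg (fun g => g.val i i) e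
  · have h1 : p ∣ Fintype.card K := (CharP.cast_eq_zero_iff K p _).1 (FiniteField.cast_card_eq_zero K)
    have h2 := (Nat.dvd_sub h1 h)
    rw [show Fintype.card K - (Fintype.card K - 1) = 1 by omega] at h2
    exact (Fact.out : p.Prime).one_lt.ne' (Nat.dvd_one.1 h2)
  · rw [← map_pow, ← Fintype.card_units, pow_card_eq_one, map_one]
  · simpa [Matrix.transvection, ij] using congrArg (fun g => g.val i j) e
  · rw [Units.val_pow_eq_pow_val]
    exact (pw p).trans (by simp)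

end Pool.Agent.Results.MP_020c1a_co.Counter
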